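import Mathlib

/-!
# Project NZ: counting squarefree polynomials prime to a given polynomial (finite fields)
-/

set_option autoImplicit false

open Polynomial
open scoped Classical

noncomputable section

namespace Pool.Agent.Y785.NZ

variable {F : Type} [Field F] [Fintype F]

def MS (F : Type) [Field F] (m : ℕ) : Set F[X] := {E | E.Monic ∧ E.natDegree = m}

def meq (F : Type) [Field F] (m : ℕ) : MS F m ≃ (Fin m → F) :=
  (Polynomial.monicEquivDegreeLT m).trans (Polynomial.degreeLTEquiv F m).toEquiv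

theorem MS_fin (m : ℕ) : (MS F m).Finite := by
  have : Finite (MS F m) := Finite.of_equiv _ (meq F m).symm
  exact Set.toFinite _

def MF (F : Type) [Field F] [Fintype F] (m : ℕ) : Finset F[X] := (MS_fin (F := F) m).toFinset

theorem mem_MF {m : ℕ} {E : F[X]} : E ∈ MF F m ↔ E.Monic ∧ E.natDegree = m := by
  rw [MF, Set.Finite.mem_toFinset]
  rfl

theorem card_MF (m : ℕ) : (MF F m).card = Fintype.card F ^ m := by
  have h1 : (MF F m).card = (MS F m).ncard := by
    rw [MF, Set.ncard_eq_toFinset_card _ (MS_fin m)]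
  rw [h1, ← Nat.card_coe_set_eq, Nat.card_congr (meq F m), Nat.card_fun, Nat.card_eq_fintype_card,
    Nat.card_eq_fintype_card, Fintype.card_fin]

/-- multiples of a monic polynomial -/
theorem card_dvd (m : ℕ) {P : F[X]} (hP : P.Monic) (hd : 1 ≤ P.natDegree) :
    ((MF F m).filter (fun E => P ∣ E)).card * Fintype.card F ≤ Fintype.card F ^ m := by
  have hq : 1 ≤ Fintype.card F := Fintype.card_pos
  by_cases hm : P.natDegree ≤ m
  · have h1 : (MF F m).filter (fun E => P ∣ E) ⊆
        (MF F (m - P.natDegree)).image (fun G => P * G) := by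
      intro E hE
      rw [Finset.mem_filter, mem_MF] at hE
      obtain ⟨⟨e1, e2⟩, G, rfl⟩ := hE
      have hG : G.Monic := hP.of_mul_monic_left e1
      rw [hP.natDegree_mul hG] at e2
      rw [Finset.mem_image]
      exact ⟨G, mem_MF.2 ⟨hG, by omega⟩, rfl⟩
    have h2 := (Finset.card_le_card h1).trans Finset.card_image_le
    rw [card_MF] at h2
    calc _ ≤ Fintype.card F ^ (m - P.natDegree) * Fintype.card F := Nat.mul_le_mul_right _ h2
      _ = Fintype.card F ^ (m - P.natDegree + 1) := (pow_succ _ _).symm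
      _ ≤ Fintype.card F ^ m := Nat.pow_le_pow_right hq (by omega)
  · have h1 : (MF F m).filter (fun E => P ∣ E) = ∅ := by
      rw [Finset.filter_eq_empty_iff]
      intro E hE hdv
      rw [mem_MF] at hE
      have := natDegree_le_of_dvd hdv hE.1.ne_zero
      omega
    rw [h1]
    simp

/-- polynomials which are not squarefree -/
theorem card_nsf (h7 : 8 ≤ Fintype.card F) (m : ℕ) :
    7 * ((MF F m).filter (fun E => ¬ Squarefree E)).card ≤ Fintype.card F ^ m := by
  set q := Fintype.card F with hq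
  have h1 : (MF F m).filter (fun E => ¬ Squarefree E) ⊆
      (Finset.Icc 1 (m / 2)).biUnion (fun d =>
        ((MF F d) ×ˢ (MF F (m - 2 * d))).image (fun p => p.1 * p.1 * p.2)) := by
    intro E hE
    rw [Finset.mem_filter, mem_MF] at hE
    obtain ⟨⟨e1, e2⟩, hs⟩ := hE
    unfold Squarefree at hs
    push Not at hs
    obtain ⟨x, hx, hu⟩ := hs
    have hx0 : x ≠ 0 := by
      rintro rfl
      rw [mul_zero, zero_dvd_iff] at hx
      exact e1.ne_zero hx
    have hc : x.leadingCoeff ≠ 0 := leadingCoeff_ne_zero.2 hx0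
    obtain ⟨G0, hG0⟩ := hx
    have hPm : (x * C x.leadingCoeff⁻¹).Monic := monic_mul_leadingCoeff_inv hx0
    have hEq : E = (x * C x.leadingCoeff⁻¹) * (x * C x.leadingCoeff⁻¹) *
        (C (x.leadingCoeff ^ 2) * G0) := by
      rw [hG0]
      have : (C x.leadingCoeff⁻¹ : F[X]) * C x.leadingCoeff⁻¹ * C (x.leadingCoeff ^ 2) = 1 := by
        rw [← C_mul, ← C_mul, ← C_1]
        congr 1
        field_simp
      linear_combination (-(x * x * G0)) * this
    have hGm : (C (x.leadingCoeff ^ 2) * G0).Monic := by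
      rw [hEq] at e1
      exact (hPm.mul hPm).of_mul_monic_left e1
    have hdP : 1 ≤ (x * C x.leadingCoeff⁻¹).natDegree := by
      rw [Nat.one_le_iff_ne_zero]
      intro h0
      have := hPm.natDegree_eq_zero.1 h0
      apply hu
      exact IsUnit.of_mul_eq_one _ this
    have hdeg : m = 2 * (x * C x.leadingCoeff⁻¹).natDegree +
        (C (x.leadingCoeff ^ 2) * G0).natDegree := by
      rw [← e2]
      conv_lhs => rw [hEq]
      rw [(hPm.mul hPm).natDegree_mul hGm, hPm.natDegree_mul hPm]
      ring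
    rw [Finset.mem_biUnion]
    refine ⟨(x * C x.leadingCoeff⁻¹).natDegree, Finset.mem_Icc.2 ⟨hdP, by omega⟩, ?_⟩
    rw [Finset.mem_image]
    refine ⟨(x * C x.leadingCoeff⁻¹, C (x.leadingCoeff ^ 2) * G0), ?_, hEq.symm⟩
    rw [Finset.mem_product]
    exact ⟨mem_MF.2 ⟨hPm, rfl⟩, mem_MF.2 ⟨hGm, by simp only; omega⟩⟩
  have h2 : ((MF F m).filter (fun E => ¬ Squarefree E)).card ≤
      ∑ d ∈ Finset.Icc 1 (m / 2), q ^ (m - d) := by
    refine (Finset.card_le_card h1).trans (Finset.card_biUnion_le.trans ?_)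
    refine Finset.sum_le_sum fun d hd => ?_
    rw [Finset.mem_Icc] at hd
    refine Finset.card_image_le.trans ?_
    rw [Finset.card_product, card_MF, card_MF, ← pow_add]
    exact le_of_eq (by congr 1; omega)
  have h3 : ∀ D : ℕ, D ≤ m → 7 * (∑ d ∈ Finset.Icc 1 D, q ^ (m - d)) + q ^ (m - D) ≤ q ^ m := by
    intro D
    induction D with
    | zero => intro _; simp
    | succ D ih =>
      intro hD
      have := ih (by omega)
      rw [Finset.sum_Icc_succ_top (by omega), mul_add]
      have e : q ^ (m - D) = q * q ^ (m - (D + 1)) := by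
        rw [← pow_succ']
        congr 1
        omega
      have h8 : 8 * q ^ (m - (D + 1)) ≤ q * q ^ (m - (D + 1)) := Nat.mul_le_mul_right _ h7
      rw [e] at this
      omega
  have := h3 (m / 2) (Nat.div_le_self _ _)
  calc _ ≤ 7 * ∑ d ∈ Finset.Icc 1 (m / 2), q ^ (m - d) := Nat.mul_le_mul_left _ h2
    _ ≤ q ^ m := by omega

/-- polynomials with a common factor with `Q` -/
theorem card_ncop {Q : F[X]} (hQ : Q ≠ 0) (m : ℕ) :
    ((MF F m).filter (fun E => ∃ z : F[X], Irreducible z ∧ z ∣ E ∧ z ∣ Q)).card * Fintype.card F ≤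
      Q.natDegree * Fintype.card F ^ m := by
  set nf := UniqueFactorizationMonoid.normalizedFactors Q with hnf
  have hmon : ∀ P ∈ nf, P.Monic ∧ Irreducible P := by
    intro P hP
    rw [hnf, Polynomial.mem_normalizedFactors_iff hQ] at hP
    tauto
  have h1 : (MF F m).filter (fun E => ∃ z : F[X], Irreducible z ∧ z ∣ E ∧ z ∣ Q) ⊆
      nf.toFinset.biUnion (fun P => (MF F m).filter (fun E => P ∣ E)) := by
    intro E hE
    rw [Finset.mem_filter] at hE
    obtain ⟨hE, z, hz, hzE, hzQ⟩ := hE
    obtain ⟨P, hP, hPz⟩ := UniqueFactorizationMonoid.exists_mem_normalizedFactors_of_dvd hQ hz hzQ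
    rw [Finset.mem_biUnion]
    exact ⟨P, Multiset.mem_toFinset.2 hP, Finset.mem_filter.2 ⟨hE, (hPz.symm.dvd).trans hzE⟩⟩
  have h2 : ((MF F m).filter (fun E => ∃ z : F[X], Irreducible z ∧ z ∣ E ∧ z ∣ Q)).card *
      Fintype.card F ≤ nf.toFinset.card * Fintype.card F ^ m := by
    refine (Nat.mul_le_mul_right _ ((Finset.card_le_card h1).trans Finset.card_biUnion_le)).trans ?_
    rw [Finset.sum_mul, ← smul_eq_mul (nf.toFinset.card), ← Finset.sum_const]
    refine Finset.sum_le_sum fun P hP => ?_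
    have := hmon P (Multiset.mem_toFinset.1 hP)
    exact card_dvd m this.1 this.2.natDegree_pos
  refine h2.trans (Nat.mul_le_mul_right _ ?_)
  have h3 : Multiset.card nf ≤ Q.natDegree := by
    have a1 : nf.prod.natDegree = (nf.map natDegree).sum :=
      natDegree_multiset_prod_of_monic _ fun P hP => (hmon P hP).1
    have a2 : nf.prod.natDegree ≤ Q.natDegree :=
      natDegree_le_of_dvd (UniqueFactorizationMonoid.prod_normalizedFactors hQ).dvd hQ
    have a3 : Multiset.card (nf.map natDegree) • 1 ≤ (nf.map natDegree).sum := by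
      refine Multiset.card_nsmul_le_sum fun x hx => ?_
      rw [Multiset.mem_map] at hx
      obtain ⟨P, hP, rfl⟩ := hx
      exact (hmon P hP).2.natDegree_pos
    rw [Multiset.card_map, smul_eq_mul, mul_one] at a3
    omega
  exact (Multiset.toFinset_card_le nf).trans h3

/-- the main count -/
theorem main {Q : F[X]} (hQ : Q ≠ 0) (h8 : 8 * (Q.natDegree + 1) ≤ Fintype.card F) (m : ℕ) :
    Fintype.card F ^ m ≤ 2 * ((MF F m).filter (fun E => Squarefree E ∧
      ¬ ∃ z : F[X], Irreducible z ∧ z ∣ E ∧ z ∣ Q)).card := by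
  have hsub : MF F m ⊆ (MF F m).filter (fun E => Squarefree E ∧
      ¬ ∃ z : F[X], Irreducible z ∧ z ∣ E ∧ z ∣ Q) ∪
      ((MF F m).filter (fun E => ¬ Squarefree E) ∪
      (MF F m).filter (fun E => ∃ z : F[X], Irreducible z ∧ z ∣ E ∧ z ∣ Q)) := by
    intro E hE
    simp only [Finset.mem_union, Finset.mem_filter]
    tauto
  have h1 := (Finset.card_le_card hsub).trans ((Finset.card_union_le _ _).trans
    (Nat.add_le_add_left (Finset.card_union_le _ _) _))
  rw [card_MF] at h1
  have h2 := card_nsf (F := F) (by omega) m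
  have h3 := card_ncop hQ m
  set q := Fintype.card F with hq
  set b2 := ((MF F m).filter (fun E => ∃ z : F[X], Irreducible z ∧ z ∣ E ∧ z ∣ Q)).card with hb2
  have h4 : 8 * b2 ≤ q ^ m := by
    have hq0 : 0 < q := by omega
    refine Nat.le_of_mul_le_mul_right ?_ hq0
    calc 8 * b2 * q = 8 * (b2 * q) := by ring
      _ ≤ 8 * (Q.natDegree * q ^ m) := Nat.mul_le_mul_left _ h3
      _ = (8 * Q.natDegree) * q ^ m := by ring
      _ ≤ q * q ^ m := Nat.mul_le_mul_right _ (by omega)
      _ = q ^ m * q := mul_comm _ _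
  omega

omit [Fintype F] in
/-- two polynomials without common irreducible factor are coprime -/
theorem cop_of {E Q R : F[X]} (hE : E ≠ 0) (hR : R ∣ Q)
    (h : ¬ ∃ z : F[X], Irreducible z ∧ z ∣ E ∧ z ∣ Q) : IsCoprime E R := by
  refine isCoprime_of_irreducible_dvd (fun h0 => hE h0.1) fun z hz hzE hzR => ?_
  exact h ⟨z, hz, hzE, hzR.trans hR⟩

end Pool.Agent.Y785.NZ
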