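import Pool.Agent.Y164.NZ.Stm2
import Pool.Agent.Y785.NZ.Cnt

/-!
# Project NZ: over a large field at least half of the monic polynomials are in the family
-/

set_option autoImplicit false

open Polynomial
open scoped Classical

namespace Pool.Agent.Y785.NZ.Uni

open Pool.Agent.Y785.NZ
open Pool.Agent.Y164.HG (tw)
open Pool.Agent.Y164.NZ (Dif)

theorem sub_dvd_Dif {F : Type} [Field F] {n : ℕ} (a : Fin n → F[X]) {i j : Fin n} (hij : i ≠ j) :
    (a i - a j) ∣ Dif a := by
  unfold Dif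
  rcases lt_or_gt_of_ne hij with h | h
  · exact Finset.dvd_prod_of_mem (fun x : Fin n × Fin n => a x.1 - a x.2)
      (a := (i, j)) (by simp [h])
  · have h1 : (a j - a i) ∣ _ :=
      Finset.dvd_prod_of_mem (fun x : Fin n × Fin n => a x.1 - a x.2)
        (s := (Finset.univ : Finset (Fin n × Fin n)).filter (fun x => x.1 < x.2))
        (a := (j, i)) (by simp [h])
    rw [← neg_sub, neg_dvd]
    exact h1

theorem Dif_ne {F : Type} [Field F] {n : ℕ} (a : Fin n → F[X]) (ha : ∀ i j, i ≠ j → a i ≠ a j) :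
    Dif a ≠ 0 := by
  unfold Dif
  rw [Finset.prod_ne_zero_iff]
  rintro ⟨i, j⟩ hx
  rw [Finset.mem_filter] at hx
  exact sub_ne_zero.2 (ha i j hx.2.ne)

/-- **NZ-UNI** -/
theorem t : Pool.Agent.Y164.NZ.S_UNI := by
  intro F _ _ _ n a ha h8 m
  have hQ := Dif_ne a ha
  refine (main hQ h8 m).trans (Nat.mul_le_mul_left _ ?_)
  rw [← Set.ncard_coe_finset]
  refine Set.ncard_le_ncard ?_ ?_
  · intro E hE
    rw [Finset.mem_coe, Finset.mem_filter, mem_MF] at hE
    obtain ⟨⟨h1, h2⟩, h3, h4⟩ := hE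
    exact ⟨h1, h2, h3, fun i j hij => cop_of h1.ne_zero (sub_dvd_Dif a hij) h4⟩
  · refine (MS_fin (F := F) m).subset ?_
    intro E hE
    exact ⟨hE.1, hE.2.1⟩

end Pool.Agent.Y785.NZ.Uni
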